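import Pool.Agent.H5.Dem.Stmts

/-! # Project DEM, module CHI0 -/

set_option autoImplicit false

namespace Pool.Agent.H5.Dem

namespace Chi0aux

theorem sq_one : ∀ u : (ZMod 8)ˣ, u ^ 2 = 1 := by decide

/-- Seven. -/
def u7 : (ZMod 8)ˣ := ⟨7, 7, by decide, by decide⟩

/-- Five. -/
def u5 : (ZMod 8)ˣ := ⟨5, 5, by decide, by decide⟩

end Chi0aux

open Chi0aux in
theorem chi0 : CHI0Stmt := by
  intro G _ _ x y z h
  obtain ⟨f, h1, h2, h3, h4⟩ := h.up (ZMod 8)ˣ (fun u => ⟨1, by simpa using sq_one u⟩) u7 1 u5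
    (by unfold rel; decide)
  exact ⟨f, h1, by rw [h2]; rfl, by rw [h3]; rfl, by rw [h4]; rfl⟩

end Pool.Agent.H5.Dem
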