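import Pool.Agent.H5.Dem.Stmts

/-! # Project DEM, module CUP0 -/

set_option autoImplicit false
set_option linter.style.haveILetI false

namespace Pool.Agent.H5.Dem

theorem cup0 (hC : CUPStmt) (hE : EXTStmt) (hM : MAXStmt) : CUP0Stmt := by
  intro G _ _ x y z h P hPc hPo f₁ f₂
  haveI := h.proP.topGroup
  obtain ⟨V, hPV, F₁, F₂, hVo, h1, h2⟩ := hE G h.proP P hPc f₁ f₂
  have hne : P ≠ V := by
    rintro rfl
    exact hPo hVo
  obtain ⟨ω, hω, hω'⟩ := hM G h.proP V P hPV (V.isClosed_of_isOpen hVo) hPc hne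
  obtain ⟨k, e, he, he'⟩ := (hC G x y z h V hVo ω hω).1 F₁ F₂
  have hc : Continuous (fun p : P => (⟨p, hPV p.2⟩ : V)) := by fun_prop
  refine ⟨fun p => e ⟨p, hPV p.2⟩, he.comp_continuous hc, fun g g' => ?_⟩
  have h3 := he' ⟨g, hPV g.2⟩ ⟨g', hPV g'.2⟩
  rw [h1, h2, hω', zero_mul, add_zero] at h3
  exact h3

end Pool.Agent.H5.Dem
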