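import Pool.Agent.H5.Dem.Stmts

/-! # Project DEM, module EUL: the counting theorem -/

set_option autoImplicit false
set_option linter.style.haveILetI false

namespace Pool.Agent.H5.Dem

namespace Eulaux

theorem mod_smul {A : Type} [AddCommGroup A] {a : A} (h : 8 • a = 0) (n : ℕ) :
    (n % 8) • a = n • a := by
  conv_rhs => rw [← Nat.mod_add_div n 8, add_smul, mul_comm 8, mul_smul, h, smul_zero, add_zero]

theorem val_smul {A : Type} [AddCommGroup A] {a : A} (h : 8 • a = 0) (u v : ZMod 8) :
    u.val • v.val • a = (u * v).val • a := by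
  rw [ZMod.val_mul, mod_smul h, mul_smul]

end Eulaux

open Eulaux in
theorem eul (hK : KLStmt) (hU : UPZStmt) (hI : INDStmt) (hS : SHAPStmt) (hF : FROBStmt) :
    EULStmt := by
  intro G _ _ x y z h χ hχ U hUo M _ _ ρ h8 hρ
  haveI := h.proP.topGroup
  haveI := h.proP.compact
  haveI : Finite (G ⧸ U) := Subgroup.quotient_finite_of_isOpen U hUo
  have hfi : U.FiniteIndex := Subgroup.finiteIndex_of_finite_quotient
  have hv1 : (1 : ZMod 8).val = 1 := rfl
  have hn : U.index ≠ 0 := hfi.index_ne_zero
  obtain ⟨hcard, hker⟩ := hI G h.proP U hUo M ρ hρ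
  have hM : 0 < Nat.card M := Nat.card_pos
  haveI : Finite (Ind U ρ) := Nat.finite_of_card_ne_zero (by rw [hcard]; positivity)
  set σ := indAct U ρ with hσ
  have h8' : ∀ a : Ind U ρ, 8 • a = 0 := by
    intro a
    ext g
    exact h8 _
  obtain ⟨k, hk⟩ := h.proP.index σ.ker inferInstance hker
  have hY : (σ y) ^ (2 ^ k) = 1 := by
    rw [← map_pow, ← MonoidHom.mem_ker, ← hk]
    exact Subgroup.pow_index_mem σ.ker y
  have e1 := hK (Ind U ρ) (σ x) (σ y) (σ z) k h8' hY
  have e2 := hU G x y z h (Ind U ρ) σ h8' hker
  have e3 := hS G h.proP U hUo M ρ hρ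
  have e4 := hF G U hn M ρ χ h8
  -- the conditions at the generators
  have hset : {ψ : AddChar (Ind U ρ) ℂ | (∀ a, ψ (σ x a) = ψ (7 • a)) ∧ (∀ a, ψ (σ y a) = ψ a) ∧
      ∀ a, ψ (σ z a) = ψ (5 • a)} = JJ σ χ := by
    ext ψ
    constructor
    · rintro ⟨c1, c2, c3⟩
      set S : Subgroup G :=
        { carrier := {g | ∀ a, ψ (σ g a) = ψ (((χ g : (ZMod 8)ˣ) : ZMod 8).val • a)}
          mul_mem' := by
            intro g g' hg hg' a
            rw [map_mul, map_mul, Units.val_mul]
            have : (σ g * σ g') a = σ g (σ g' a) := rfl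
            rw [this, hg, ← map_nsmul, hg', val_smul (h8' a), mul_comm]
          one_mem' := by
            intro a
            rw [map_one, map_one, Units.val_one, hv1, one_smul]
            rfl
          inv_mem' := by
            intro g hg a
            have h1 := hg (σ g⁻¹ (((χ g⁻¹ : (ZMod 8)ˣ) : ZMod 8).val • a))
            have h2 : ∀ b, σ g (σ g⁻¹ b) = b := by
              intro b
              have : σ g (σ g⁻¹ b) = (σ g * σ g⁻¹) b := rfl
              rw [this, ← map_mul, mul_inv_cancel, map_one]
              rfl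
            rw [h2, map_nsmul (σ g⁻¹), val_smul (h8' _), ← Units.val_mul, ← map_mul, mul_inv_cancel,
              map_one, Units.val_one] at h1
            have h3 : (1 : ZMod 8).val = 1 := rfl
            rw [h3, one_smul] at h1
            exact h1.symm } with hSdef
      have hSo : IsOpen (S : Set G) := by
        apply Subgroup.isOpen_mono (H₁ := σ.ker ⊓ χ.ker)
        · intro g hg a
          have h1 : σ g = 1 := hg.1
          have h2 : χ g = 1 := hg.2
          rw [h1, h2, Units.val_one, hv1, one_smul]
          rfl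
        · exact hker.inter hχ.isOpen
      have hSc : IsClosed (S : Set G) := S.isClosed_of_isOpen hSo
      have hS : ∀ g, g ∈ S := by
        intro g
        have h1 : Subgroup.closure {x, y, z} ≤ S := by
          rw [Subgroup.closure_le]
          rintro g (rfl | rfl | rfl)
          · intro a
            rw [hχ.hx]
            exact c1 a
          · intro a
            rw [hχ.hy]
            have h3 : (1 : ZMod 8).val = 1 := rfl
            rw [h3, one_smul]
            exact c2 a
          · intro a
            rw [hχ.hz]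
            exact c3 a
        have h2 : closure (Subgroup.closure {x, y, z} : Set G) ⊆ S :=
          closure_minimal h1 hSc
        rw [h.dense] at h2
        exact h2 (Set.mem_univ g)
      exact fun g a => hS g a
    · intro hψ
      refine ⟨fun a => ?_, fun a => ?_, fun a => ?_⟩
      · have := hψ x a
        rw [hχ.hx] at this
        exact this
      · have := hψ y a
        rw [hχ.hy] at this
        have h3 : (1 : ZMod 8).val = 1 := rfl
        rw [h3, one_smul] at this
        exact this
      · have := hψ z a
        rw [hχ.hz] at this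
        exact this
  have e5 : Nat.card {ψ : AddChar (Ind U ρ) ℂ // (∀ a, ψ (σ x a) = ψ (7 • a)) ∧
      (∀ a, ψ (σ y a) = ψ a) ∧ ∀ a, ψ (σ z a) = ψ (5 • a)} = Nat.card (JJ σ χ) := by
    rw [← hset]
    rfl
  rw [e5, e4, hcard] at e1
  rw [e2, e1] at e3
  obtain ⟨m, hm⟩ := Nat.exists_eq_succ_of_ne_zero hn
  rw [hm] at e3 ⊢
  simp only [Nat.succ_eq_add_one, Nat.add_sub_cancel] at e3 ⊢
  have hpos : 0 < Nat.card M ^ m := by positivity
  apply Nat.eq_of_mul_eq_mul_right hpos
  rw [← e3]
  ring

end Pool.Agent.H5.Dem
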