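import Pool.Agent.H5.Dem.Stmts

/-!
# Project DEM, module FIN: the invariant normal subgroup
-/

set_option autoImplicit false
set_option linter.style.haveILetI false

namespace Pool.Agent.H5.Dem

namespace Finaux

/-- Pull back of characters. -/
def pull {A B : Type} [Group A] [TopologicalSpace A] [Group B] [TopologicalSpace B] (φ : A →* B)
    (hφ : Continuous φ) (f : H1 2 B) : H1 2 A :=
  ⟨fun a => f.1 (φ a), f.2.1.comp_continuous hφ, fun g h => by
    simp only [map_mul, f.2.2]⟩

theorem H1_one {A : Type} [Group A] [TopologicalSpace A] (f : H1 2 A) : f.1 1 = 0 := by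
  have h := f.2.2 1 1
  rw [mul_one] at h
  simpa using h

theorem H1_inv {A : Type} [Group A] [TopologicalSpace A] (f : H1 2 A) (a : A) :
    f.1 a⁻¹ = - f.1 a := by
  have h := f.2.2 a a⁻¹
  rw [mul_inv_cancel, H1_one] at h
  exact (neg_eq_of_add_eq_zero_right h.symm).symm

/-- The intersection of the kernels of all characters of order two. -/
def NN (A : Type) [Group A] [TopologicalSpace A] : Subgroup A where
  carrier := {a | ∀ f : H1 2 A, f.1 a = 0}
  mul_mem' := by
    intro a b ha hb f
    rw [f.2.2, ha f, hb f, add_zero]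
  one_mem' := fun f => H1_one f
  inv_mem' := by
    intro a ha f
    rw [H1_inv, ha f, neg_zero]

theorem NN_open (A : Type) [Group A] [TopologicalSpace A] [Finite (H1 2 A)] :
    IsOpen (NN A : Set A) := by
  have h : (NN A : Set A) = ⋂ f : H1 2 A, {a | f.1 a = 0} := by
    ext a
    simp [NN]
  rw [h]
  exact isOpen_iInter_of_finite fun f => f.2.1.isOpen_fiber 0

section

variable {G : Type} [Group G] [TopologicalSpace G] {x y z : G}

theorem card_H1 (hH : H1CStmt) (h : IsG G x y z) : Nat.card (H1 2 G) = 8 := by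
  have h1 := hH G x y z h ⊤ isOpen_univ
  rw [Subgroup.index_top] at h1
  have e : H1 2 G ≃ H1 2 (⊤ : Subgroup G) :=
    { toFun := fun f => pull (⊤ : Subgroup G).subtype continuous_subtype_val f
      invFun := fun f => pull ((Subgroup.topEquiv (G := G)).symm : G →* (⊤ : Subgroup G))
        (by
          have : Continuous (fun g : G => (⟨g, trivial⟩ : (⊤ : Subgroup G))) := by fun_prop
          exact this) f
      left_inv := fun f => by
        ext g
        rfl
      right_inv := fun f => by
        ext g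
        rfl }
  rw [Nat.card_congr e, h1]
  norm_num

theorem bot_not_open (hH : H1CStmt) (h : IsG G x y z) : ¬ IsOpen ((⊥ : Subgroup G) : Set G) := by
  intro ho
  have h1 := hH G x y z h ⊥ ho
  have h2 : Subsingleton (H1 2 (⊥ : Subgroup G)) := by
    constructor
    intro f k
    ext g
    have hg : g = 1 := Subsingleton.elim _ _
    rw [hg, H1_one, H1_one]
  rw [Nat.card_unique] at h1
  have h3 : 1 < 2 ^ ((⊥ : Subgroup G).index + 2) := Nat.one_lt_two_pow (by omega)
  omega

/-- The two characters of order two of `(ZMod 8)ˣ`. -/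
def ca (u : (ZMod 8)ˣ) : ZMod 2 := if u.1 = 1 ∨ u.1 = 5 then 0 else 1

/-- The second one. -/
def cb (u : (ZMod 8)ˣ) : ZMod 2 := if u.1 = 1 ∨ u.1 = 7 then 0 else 1

theorem ca_mul : ∀ u v, ca (u * v) = ca u + ca v := by decide

theorem cb_mul : ∀ u v, cb (u * v) = cb u + cb v := by decide

theorem eq_one_of : ∀ u, ca u = 0 → cb u = 0 → u = 1 := by decide

theorem ca7 : ∀ u : (ZMod 8)ˣ, u.1 = 7 → ca u = 1 ∧ cb u = 0 := by decide

theorem cb5 : ∀ u : (ZMod 8)ˣ, u.1 = 5 → ca u = 0 ∧ cb u = 1 := by decide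

theorem lc_of_ker {χ : G →* (ZMod 8)ˣ} [IsTopologicalGroup G] (hχ : IsOpen (χ.ker : Set G)) :
    IsLocallyConstant χ := by
  rw [IsLocallyConstant.iff_exists_open]
  intro g
  refine ⟨(fun k => g⁻¹ * k) ⁻¹' (χ.ker : Set G), hχ.preimage (by fun_prop), ?_, ?_⟩
  · simp
  · intro k hk
    have : χ (g⁻¹ * k) = 1 := hk
    rw [map_mul, map_inv, inv_mul_eq_one] at this
    exact this.symm

/-- The first character of `G`. -/
def fa {χ : G →* (ZMod 8)ˣ} (hl : IsLocallyConstant χ) : H1 2 G :=
  ⟨fun g => ca (χ g), hl.comp ca, fun g h => by simp only [map_mul, ca_mul]⟩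

/-- The second character of `G`. -/
def fb {χ : G →* (ZMod 8)ˣ} (hl : IsLocallyConstant χ) : H1 2 G :=
  ⟨fun g => cb (χ g), hl.comp cb, fun g h => by simp only [map_mul, cb_mul]⟩

open Classical in
/-- The character with kernel `H`. -/
noncomputable def fH [IsTopologicalGroup G] {H : Subgroup G} (hi : H.index = 2)
    (ho : IsOpen (H : Set G)) : H1 2 G :=
  ⟨fun g => if g ∈ H then 0 else 1, by
    refine ⟨?_, fun g h => ?_⟩
    · rw [IsLocallyConstant.iff_exists_open]
      intro g
      refine ⟨(fun k => g⁻¹ * k) ⁻¹' (H : Set G), ho.preimage (by fun_prop), by simp, ?_⟩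
      intro k hk
      have hk' : g⁻¹ * k ∈ H := hk
      have h1 := Subgroup.mul_mem_iff_of_index_two hi (a := g⁻¹) (b := k)
      have h2 : g⁻¹ ∈ H ↔ g ∈ H := inv_mem_iff
      by_cases hg : g ∈ H <;> by_cases hk2 : k ∈ H <;> simp_all
    · have h1 := Subgroup.mul_mem_iff_of_index_two hi (a := g) (b := h)
      have h2 : (1 + 1 : ZMod 2) = 0 := rfl
      by_cases hg : g ∈ H <;> by_cases hh : h ∈ H <;> simp_all⟩

theorem fH_eq_zero [IsTopologicalGroup G] {H : Subgroup G} (hi : H.index = 2)
    (ho : IsOpen (H : Set G)) {g : G} : (fH hi ho).1 g = 0 ↔ g ∈ H := by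
  classical
  unfold fH
  by_cases hg : g ∈ H <;> simp [hg]

theorem fH_eq_one [IsTopologicalGroup G] {H : Subgroup G} (hi : H.index = 2)
    (ho : IsOpen (H : Set G)) {g : G} (hg : g ∉ H) : (fH hi ho).1 g = 1 := by
  classical
  unfold fH
  simp [hg]

/-- All characters vanish on `H ⊓ ker χ`. -/
theorem vanish (hH : H1CStmt) (h : IsG G x y z) {χ : G →* (ZMod 8)ˣ} (hχ : IsChi x y z χ)
    [IsTopologicalGroup G] {H : Subgroup G} (hi : H.index = 2) (ho : IsOpen (H : Set G))
    (hn : ¬ χ.ker ≤ H) {g : G} (hg : g ∈ H) (hg' : χ g = 1) : g ∈ NN G := by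
  have hl := lc_of_ker hχ.isOpen
  have hc := card_H1 hH h
  haveI : Finite (H1 2 G) := Nat.finite_of_card_ne_zero (by rw [hc]; norm_num)
  obtain ⟨l, hl1, hl2⟩ := SetLike.not_le_iff_exists.1 hn
  have hl1' : χ l = 1 := hl1
  set Φ : ZMod 2 × ZMod 2 × ZMod 2 → H1 2 G := fun v =>
    v.1 • fa hl + v.2.1 • fb hl + v.2.2 • fH hi ho with hΦ
  have hval : ∀ v g, (Φ v).1 g = v.1 * ca (χ g) + v.2.1 * cb (χ g) + v.2.2 * (fH hi ho).1 g := by
    intro v g
    rfl
  have ca1 : ca 1 = 0 := by decide
  have cb1 : cb 1 = 0 := by decide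
  have hinj : Function.Injective Φ := by
    intro v w hvw
    have e1 : ∀ g, v.1 * ca (χ g) + v.2.1 * cb (χ g) + v.2.2 * (fH hi ho).1 g =
        w.1 * ca (χ g) + w.2.1 * cb (χ g) + w.2.2 * (fH hi ho).1 g := by
      intro g
      rw [← hval, ← hval, hvw]
    have e2 := e1 l
    rw [hl1', ca1, cb1, fH_eq_one hi ho hl2] at e2
    have e3 : v.2.2 = w.2.2 := by simpa using e2
    have e4 := e1 x
    rw [(ca7 _ hχ.hx).1, (ca7 _ hχ.hx).2, e3] at e4
    have e5 : v.1 = w.1 := by simpa using e4
    have e6 := e1 z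
    rw [(cb5 _ hχ.hz).1, (cb5 _ hχ.hz).2, e3] at e6
    have e7 : v.2.1 = w.2.1 := by simpa using e6
    exact Prod.ext e5 (Prod.ext e7 e3)
  have hsurj : Function.Surjective Φ := by
    have := (Nat.bijective_iff_injective_and_card Φ).2 ⟨hinj, by
      rw [hc, Nat.card_prod, Nat.card_prod, Nat.card_zmod]⟩
    exact this.2
  intro f
  obtain ⟨v, rfl⟩ := hsurj f
  rw [hval, hg', ca1, cb1, (fH_eq_zero hi ho).2 hg]
  ring

end

end Finaux

open Finaux in
theorem fin (hC0 : CHI0Stmt) (hC : CHIStmt) (hH : H1CStmt) : FINStmt := by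
  intro G _ _ x y z h H φ ho hi hcont hinj ho' hi'
  obtain ⟨χ, hχ⟩ := hC0 G x y z h
  haveI := h.proP.topGroup
  haveI := h.proP.compact
  haveI := h.proP.hausdorff
  set H' := φ.range with hH'
  -- the homeomorphism
  set e : H ≃* H' := MonoidHom.ofInjective hinj with he
  have hec : Continuous e := by
    have : Continuous (fun a : H => (⟨φ a, ⟨a, rfl⟩⟩ : H')) := by fun_prop
    exact this
  haveI : CompactSpace H := isCompact_iff_compactSpace.1 (H.isClosed_of_isOpen ho).isCompact
  have hes : Continuous e.symm := by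
    have := (Continuous.homeoOfEquivCompactToT2 (f := e.toEquiv) hec).symm.continuous
    exact this
  have he1 : ∀ a : H, ((e a : H') : G) = φ a := fun a => rfl
  -- `χ` is preserved
  have hχφ : χ.comp φ = χ.comp H.subtype := by
    refine (hC G x y z h χ hχ H ho hi (χ.comp φ) ?_).1 ?_
    · exact hχ.isOpen.preimage hcont
    · rw [← (hC G x y z h χ hχ H' ho' hi' (χ.comp H'.subtype)
        (hχ.isOpen.preimage continuous_subtype_val)).2 rfl]
      refine Nat.card_congr
        { toFun := fun c => ⟨fun b => c.1 (e.symm b), c.2.1.comp_continuous hes, fun g k => ?_⟩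
          invFun := fun c => ⟨fun a => c.1 (e a), c.2.1.comp_continuous hec, fun g k => ?_⟩
          left_inv := fun c => ?_
          right_inv := fun c => ?_ }
      · have h1 := c.2.2 (e.symm g) (e.symm k)
        rw [← map_mul] at h1
        have h2 : χ (φ (e.symm g)) = χ (g : G) := by
          rw [← he1, e.apply_symm_apply]
        simp only [MonoidHom.comp_apply, h2] at h1
        exact h1
      · have h1 := c.2.2 (e g) (e k)
        rw [← map_mul] at h1
        exact h1
      · ext a
        simp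
      · ext a
        simp
  have hχφ' : ∀ a : H, χ (φ a) = χ a := fun a => DFunLike.congr_fun hχφ a
  have hnormal : H.Normal := Subgroup.normal_of_index_eq_two hi
  by_cases hcase : χ.ker ≤ H
  · -- first case
    have h1 : H' ≤ H := by
      rintro _ ⟨k, rfl⟩
      have h2 : φ k * (k : G)⁻¹ ∈ χ.ker := by
        rw [MonoidHom.mem_ker, map_mul, map_inv, hχφ', mul_inv_cancel]
      have h3 := H.mul_mem (hcase h2) k.2
      rwa [inv_mul_cancel_right] at h3
    have hfin : Finite (H1 2 H) := by
      have h2 := hH G x y z h H ho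
      exact Nat.finite_of_card_ne_zero (by rw [h2]; positivity)
    set N := (NN H).map H.subtype with hN
    have hNH : N ≤ H := by
      rintro _ ⟨k, _, rfl⟩
      exact k.2
    have hmem : ∀ k : H, (k : G) ∈ N ↔ k ∈ NN H := by
      intro k
      constructor
      · rintro ⟨k', hk', hkk⟩
        have : k' = k := Subtype.ext hkk
        exact this ▸ hk'
      · intro hk
        exact ⟨k, hk, rfl⟩
    refine ⟨N, hNH, ⟨?_⟩, ?_, ?_⟩
    · rintro n hn g
      have hnH : n ∈ H := hNH hn
      have hg : g * n * g⁻¹ ∈ H := hnormal.conj_mem n hnH g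
      rw [show g * n * g⁻¹ = ((⟨g * n * g⁻¹, hg⟩ : H) : G) from rfl, hmem]
      intro f
      set cj : H →* H :=
        { toFun := fun k => ⟨g * k * g⁻¹, hnormal.conj_mem k k.2 g⟩
          map_one' := by ext; simp
          map_mul' := fun a b => by ext; simp } with hcj
      have hcjc : Continuous cj := by
        have : Continuous (fun k : H => (⟨g * k * g⁻¹, hnormal.conj_mem k k.2 g⟩ : H)) := by
          fun_prop
        exact this
      exact (hmem ⟨n, hnH⟩).1 hn (pull cj hcjc f)
    · intro n hn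
      have hnH : n ∈ H := hNH hn
      have hφn : φ ⟨n, hnH⟩ ∈ H := h1 ⟨_, rfl⟩
      rw [show φ ⟨n, hNH hn⟩ = ((⟨φ ⟨n, hnH⟩, hφn⟩ : H) : G) from rfl, hmem]
      intro f
      set ψ : H →* H :=
        { toFun := fun k => ⟨φ k, h1 ⟨_, rfl⟩⟩
          map_one' := by ext; simp
          map_mul' := fun a b => by ext; simp } with hψ
      have hψc : Continuous ψ := by
        have : Continuous (fun k : H => (⟨φ k, h1 ⟨_, rfl⟩⟩ : H)) := by
          fun_prop
        exact this
      exact (hmem ⟨n, hnH⟩).1 hn (pull ψ hψc f)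
    · intro hbot
      apply bot_not_open hH h
      rw [← hbot, hN, Subgroup.coe_map]
      exact ho.isOpenMap_subtype_val _ (NN_open H)
  · -- second case
    have hcase' : ¬ χ.ker ≤ H' := by
      intro hle
      obtain ⟨l, hl1, hl2⟩ := SetLike.not_le_iff_exists.1 hcase
      have htop : H' = ⊤ := by
        rw [eq_top_iff]
        intro g _
        obtain ⟨k, hk, hkg⟩ : ∃ k ∈ H, χ k = χ g := by
          by_cases hg : g ∈ H
          · exact ⟨g, hg, rfl⟩
          · refine ⟨l * g, (Subgroup.mul_mem_iff_of_index_two hi).2 (by simp [hg, hl2]), ?_⟩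
            have : χ l = 1 := hl1
            rw [map_mul, this, one_mul]
        have h2 : (φ ⟨k, hk⟩)⁻¹ * g ∈ χ.ker := by
          rw [MonoidHom.mem_ker, map_mul, map_inv, hχφ', ← hkg, inv_mul_cancel]
        have h3 := H'.mul_mem (⟨⟨k, hk⟩, rfl⟩ : φ ⟨k, hk⟩ ∈ H') (hle h2)
        rwa [mul_inv_cancel_left] at h3
      rw [htop, Subgroup.index_top] at hi'
      norm_num at hi'
    have hfin : Finite (H1 2 G) := by
      have h2 := card_H1 hH h
      exact Nat.finite_of_card_ne_zero (by rw [h2]; norm_num)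
    have hl := lc_of_ker hχ.isOpen
    have hNH : NN G ≤ H := fun g hg => (fH_eq_zero hi ho).1 (hg (fH hi ho))
    refine ⟨NN G, hNH, ⟨?_⟩, ?_, ?_⟩
    · intro n hn g f
      rw [f.2.2, f.2.2, hn f, H1_inv]
      ring
    · intro n hn
      have h1 : χ n = 1 := eq_one_of _ (hn (fa hl)) (hn (fb hl))
      exact vanish hH h hχ hi' ho' hcase' ⟨_, rfl⟩ (by rw [hχφ']; exact h1)
    · intro hbot
      apply bot_not_open hH h
      rw [← hbot]
      exact NN_open G

end Pool.Agent.H5.Dem
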