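import Pool.Agent.H5.Dem.Fin

/-! # Project DEM, module IDX: the image has index 2 -/

set_option autoImplicit false
set_option linter.style.haveILetI false

namespace Pool.Agent.H5.Dem

open Finaux in
theorem idx (hH : H1CStmt) (hC : CUPStmt) (h0 : CUP0Stmt) : IDXStmt := by
  intro G _ _ x y z h H φ ho hi hcont hinj
  haveI := h.proP.topGroup
  haveI := h.proP.compact
  haveI := h.proP.hausdorff
  set U := φ.range with hU
  set e : H ≃* U := MonoidHom.ofInjective hinj with he
  have hec : Continuous e := by
    have : Continuous (fun a : H => (⟨φ a, ⟨a, rfl⟩⟩ : U)) := by fun_prop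
    exact this
  haveI : CompactSpace H := isCompact_iff_compactSpace.1 (H.isClosed_of_isOpen ho).isCompact
  have hes : Continuous e.symm := by
    have := (Continuous.homeoOfEquivCompactToT2 (f := e.toEquiv) hec).symm.continuous
    exact this
  have hUc : IsClosed (U : Set G) := by
    have : (U : Set G) = Set.range φ := by
      rw [hU, MonoidHom.coe_range]
    rw [this]
    exact (isCompact_range hcont).isClosed
  have hes' : Continuous (e.symm : U →* H) := hes
  have hec' : Continuous (e : H →* U) := hec
  have hcard := hH G x y z h H ho
  rw [hi] at hcard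
  have hopen : IsOpen (U : Set G) := by
    by_contra hn
    haveI : Finite (H1 2 H) := Nat.finite_of_card_ne_zero (by rw [hcard]; norm_num)
    have hnt : Nontrivial (H1 2 H) := by
      rw [← Finite.one_lt_card_iff_nontrivial, hcard]
      norm_num
    obtain ⟨ω, hω⟩ := exists_ne (0 : H1 2 H)
    obtain ⟨k, hk⟩ := (hC G x y z h H ho ω hω).2
    obtain ⟨d, hd, hd'⟩ := h0 G x y z h U hUc hn (pull (e.symm : U →* H) hes' ω)
      (pull (e.symm : U →* H) hes' k)
    refine hk ⟨fun a => d (e a), hd.comp_continuous hec, fun g g' => ?_⟩
    have h1 := hd' (e g) (e g')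
    rw [← map_mul] at h1
    have h2 : ∀ (f : H1 2 H) (a : H), (pull (e.symm : U →* H) hes' f).1 (e a) = f.1 a := by
      intro f a
      have : (pull (e.symm : U →* H) hes' f).1 (e a) = f.1 (e.symm (e a)) := rfl
      rw [this, e.symm_apply_apply]
    rw [h2, h2] at h1
    exact h1
  refine ⟨hopen, ?_⟩
  have h1 := hH G x y z h U hopen
  have h2 : Nat.card (H1 2 H) = Nat.card (H1 2 U) :=
    Nat.card_congr
      { toFun := fun f => pull (e.symm : U →* H) hes' f
        invFun := fun f => pull (e : H →* U) hec' f
        left_inv := fun f => by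
          ext a
          have : (pull (e : H →* U) hec' (pull (e.symm : U →* H) hes' f)).1 a =
            f.1 (e.symm (e a)) := rfl
          rw [this, e.symm_apply_apply]
        right_inv := fun f => by
          ext a
          have : (pull (e.symm : U →* H) hes' (pull (e : H →* U) hec' f)).1 a =
            f.1 (e (e.symm a)) := rfl
          rw [this, e.apply_symm_apply] }
  rw [h1, hcard] at h2
  have h3 := Nat.pow_right_injective (le_refl 2) h2
  omega

end Pool.Agent.H5.Dem
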