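import Pool.Agent.H5.Dem.Stmts

/-! # Project DEM, module INJ: the virtual endomorphism is injective -/

set_option autoImplicit false
set_option linter.style.haveILetI false

namespace Pool.Agent.H5.Dem

theorem inj (hC : COMMStmt) : INJStmt := by
  intro G _ _ x y z h H φ ho hi hc hN
  haveI := h.proP.topGroup
  haveI := h.proP.compact
  haveI := h.proP.hausdorff
  have hnormal : H.Normal := Subgroup.normal_of_index_eq_two hi
  rw [← MonoidHom.ker_eq_bot_iff, Subgroup.eq_bot_iff_forall]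
  intro a₀ ha₀
  by_contra hne
  -- the kernel as a subgroup of `G`
  set K := φ.ker.map H.subtype with hK
  have hmem : ∀ k : G, k ∈ K ↔ ∃ hk : k ∈ H, φ ⟨k, hk⟩ = 1 := by
    intro k
    constructor
    · rintro ⟨k', hk', rfl⟩
      exact ⟨k'.2, hk'⟩
    · rintro ⟨hk, hk'⟩
      exact ⟨⟨k, hk⟩, hk', rfl⟩
  have hKc : IsClosed (K : Set G) := by
    have h1 : IsClosed (φ.ker : Set H) := by
      have : (φ.ker : Set H) = φ ⁻¹' {1} := by
        ext k
        simp [MonoidHom.mem_ker]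
      rw [this]
      exact isClosed_singleton.preimage hc
    rw [hK, Subgroup.coe_map]
    exact (H.isClosed_of_isOpen ho).isClosedMap_subtype_val _ h1
  obtain ⟨t, ht⟩ : ∃ t, t ∉ H := by
    by_contra hcon
    push Not at hcon
    have : H = ⊤ := by
      rw [eq_top_iff]
      exact fun g _ => hcon g
    rw [this, Subgroup.index_top] at hi
    norm_num at hi
  have ht2 : t * t ∈ H := Subgroup.mul_self_mem_of_index_two hi t
  -- conjugation by elements of `H` preserves `K`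
  have hKH : ∀ g ∈ H, ∀ k ∈ K, g * k * g⁻¹ ∈ K := by
    intro g hg k hk
    obtain ⟨hk1, hk2⟩ := (hmem k).1 hk
    refine (hmem _).2 ⟨hnormal.conj_mem k hk1 g, ?_⟩
    have : (⟨g * k * g⁻¹, hnormal.conj_mem k hk1 g⟩ : H) = ⟨g, hg⟩ * ⟨k, hk1⟩ * ⟨g, hg⟩⁻¹ := rfl
    rw [this, map_mul, map_mul, hk2, mul_one, map_inv, mul_inv_cancel]
  set K' := K.comap (MulAut.conj t).toMonoidHom with hK'
  have hmem' : ∀ k : G, k ∈ K' ↔ t * k * t⁻¹ ∈ K := fun k => Iff.rfl
  have hK'c : IsClosed (K' : Set G) := by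
    have : Continuous (fun k : G => t * k * t⁻¹) := by fun_prop
    exact hKc.preimage this
  have hK'H : K' ≤ H := by
    intro k hk
    obtain ⟨h1, -⟩ := (hmem _).1 ((hmem' k).1 hk)
    have h2 := hnormal.conj_mem _ h1 t⁻¹
    simpa [mul_assoc] using h2
  have hKleH : K ≤ H := fun k hk => ((hmem k).1 hk).1
  -- the intersection
  have hbot : K ⊓ K' = ⊥ := by
    refine hN (K ⊓ K') (fun k hk => hKleH hk.1) ⟨?_⟩ ?_
    · -- normal
      have hHn : ∀ g ∈ H, ∀ k ∈ K ⊓ K', g * k * g⁻¹ ∈ K ⊓ K' := by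
        intro g hg k hk
        refine Subgroup.mem_inf.2 ⟨hKH g hg k hk.1, (hmem' _).2 ?_⟩
        have h1 := hKH (t * g * t⁻¹) (hnormal.conj_mem g hg t) _ ((hmem' k).1 hk.2)
        have e : t * (g * k * g⁻¹) * t⁻¹ = t * g * t⁻¹ * (t * k * t⁻¹) * (t * g * t⁻¹)⁻¹ := by
          group
        rw [e]
        exact h1
      have htn : ∀ k ∈ K ⊓ K', t * k * t⁻¹ ∈ K ⊓ K' := by
        intro k hk
        refine Subgroup.mem_inf.2 ⟨(hmem' k).1 hk.2, (hmem' _).2 ?_⟩
        have h1 := hKH (t * t) ht2 k hk.1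
        have e : t * (t * k * t⁻¹) * t⁻¹ = t * t * k * (t * t)⁻¹ := by group
        rw [e]
        exact h1
      intro k hk g
      by_cases hg : g ∈ H
      · exact hHn g hg k hk
      · have h1 : g * t⁻¹ ∈ H := by
          rw [Subgroup.mul_mem_iff_of_index_two hi, inv_mem_iff]
          simp [hg, ht]
        have h2 := hHn _ h1 _ (htn k hk)
        have e : g * k * g⁻¹ = g * t⁻¹ * (t * k * t⁻¹) * (g * t⁻¹)⁻¹ := by group
        rw [e]
        exact h2
    · intro n hn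
      obtain ⟨h1, h2⟩ := (hmem n).1 hn.1
      rw [h2]
      exact Subgroup.one_mem _
  -- two commuting elements
  have ha : (a₀ : G) ∈ K := ⟨a₀, ha₀, rfl⟩
  set b : G := t⁻¹ * a₀ * t with hb
  have hb' : b ∈ K' := by
    rw [hmem', hb]
    have e : t * (t⁻¹ * (a₀ : G) * t) * t⁻¹ = a₀ := by group
    rw [e]
    exact ha
  have hab : (a₀ : G) * b = b * a₀ := by
    have h1 : (a₀ : G) * b * (a₀ : G)⁻¹ * b⁻¹ ∈ K ⊓ K' := by
      refine Subgroup.mem_inf.2 ⟨?_, ?_⟩
      · have h2 := hKH b (hK'H hb') _ (K.inv_mem ha)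
        have h3 := K.mul_mem ha h2
        have e : (a₀ : G) * b * (a₀ : G)⁻¹ * b⁻¹ = a₀ * (b * (a₀ : G)⁻¹ * b⁻¹) := by group
        rw [e]
        exact h3
      · refine K'.mul_mem ((hmem' _).2 ?_) (K'.inv_mem hb')
        have h2 := hKH (t * a₀ * t⁻¹) (hnormal.conj_mem _ a₀.2 t) _ ((hmem' b).1 hb')
        have e : t * ((a₀ : G) * b * (a₀ : G)⁻¹) * t⁻¹ =
            t * a₀ * t⁻¹ * (t * b * t⁻¹) * (t * a₀ * t⁻¹)⁻¹ := by group
        rw [e]
        exact h2
    rw [hbot, Subgroup.mem_bot] at h1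
    have h2 : (a₀ : G) * b * (a₀ : G)⁻¹ = b := by
      rwa [mul_inv_eq_one] at h1
    rwa [mul_inv_eq_iff_eq_mul] at h2
  rcases hC G x y z h K K' hKc hK'c hbot a₀ ha b hb' hab with h1 | h1
  · exact hne (Subtype.ext h1)
  · apply hne
    apply Subtype.ext
    have h2 : t * b * t⁻¹ = (a₀ : G) := by
      rw [hb]
      group
    rw [← h2, h1]
    simp

end Pool.Agent.H5.Dem
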