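import Mathlib

/-!
# Demushkin groups and self-similar actions: definitions for MP_33d618_al
-/

set_option autoImplicit false

namespace Pool.Agent.H5.Dem

/-- `G` is a pro-`p` group: a compact, Hausdorff, totally disconnected topological group whose
open normal subgroups have index a power of `p`. -/
structure IsProP (p : ℕ) (G : Type) [Group G] [TopologicalSpace G] : Prop where
  topGroup : IsTopologicalGroup G
  compact : CompactSpace G
  hausdorff : T2Space G
  disconnected : TotallyDisconnectedSpace G
  index : ∀ U : Subgroup G, U.Normal → IsOpen (U : Set G) → ∃ k : ℕ, U.index = p ^ k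

/-- `H¹(G, F_p)`: the space of continuous homomorphisms from `G` to `F_p` (discrete). -/
def H1 (p : ℕ) (G : Type) [Group G] [TopologicalSpace G] : Submodule (ZMod p) (G → ZMod p) where
  carrier := {f | IsLocallyConstant f ∧ ∀ g h, f (g * h) = f g + f h}
  add_mem' := by
    rintro f k ⟨hf, hf'⟩ ⟨hk, hk'⟩
    refine ⟨hf.add hk, fun g h => ?_⟩
    simp only [Pi.add_apply, hf', hk']
    ring
  zero_mem' := ⟨IsLocallyConstant.const 0, fun g h => by simp⟩
  smul_mem' := by
    rintro a f ⟨hf, hf'⟩
    refine ⟨hf.comp (fun t => a • t), fun g h => ?_⟩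
    simp only [Pi.smul_apply, hf', smul_add]

/-- Continuous inhomogeneous 2-cocycles `G × G → F_p` (trivial action). -/
def Z2 (p : ℕ) (G : Type) [Group G] [TopologicalSpace G] :
    Submodule (ZMod p) (G × G → ZMod p) where
  carrier := {c | IsLocallyConstant c ∧
    ∀ g h k, c (h, k) + c (g, h * k) = c (g * h, k) + c (g, h)}
  add_mem' := by
    rintro f k ⟨hf, hf'⟩ ⟨hk, hk'⟩
    refine ⟨hf.add hk, fun a b c => ?_⟩
    simp only [Pi.add_apply]
    have h1 := hf' a b c
    have h2 := hk' a b c
    linear_combination h1 + h2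
  zero_mem' := ⟨IsLocallyConstant.const 0, fun a b c => by simp⟩
  smul_mem' := by
    rintro a f ⟨hf, hf'⟩
    refine ⟨hf.comp (fun t => a • t), fun g h k => ?_⟩
    simp only [Pi.smul_apply, smul_eq_mul]
    have h1 := hf' g h k
    linear_combination a * h1

/-- Continuous inhomogeneous 2-coboundaries. -/
def B2 (p : ℕ) (G : Type) [Group G] [TopologicalSpace G] :
    Submodule (ZMod p) (G × G → ZMod p) where
  carrier := {c | ∃ b : G → ZMod p, IsLocallyConstant b ∧
    ∀ g h, c (g, h) = b g + b h - b (g * h)}
  add_mem' := by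
    rintro f k ⟨b, hb, hb'⟩ ⟨b', hc, hc'⟩
    refine ⟨b + b', hb.add hc, fun g h => ?_⟩
    simp only [Pi.add_apply, hb', hc']
    ring
  zero_mem' := ⟨0, IsLocallyConstant.const 0, fun g h => by simp⟩
  smul_mem' := by
    rintro a f ⟨b, hb, hb'⟩
    refine ⟨a • b, hb.comp (fun t => a • t), fun g h => ?_⟩
    simp only [Pi.smul_apply, hb', smul_eq_mul]
    ring

/-- `H²(G, F_p)`: continuous 2-cocycles modulo coboundaries. -/
abbrev H2 (p : ℕ) (G : Type) [Group G] [TopologicalSpace G] : Type :=
  ↥(Z2 p G) ⧸ (B2 p G).comap (Z2 p G).subtype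

/-- The cocycle `(g, h) ↦ f g * k h` representing the cup product of `f` and `k`. -/
def cup {p : ℕ} {G : Type} [Group G] [TopologicalSpace G] (f k : H1 p G) : Z2 p G :=
  ⟨fun q => f.1 q.1 * k.1 q.2, by
    refine ⟨?_, fun a b c => ?_⟩
    · exact (f.2.1.comp_continuous continuous_fst).mul (k.2.1.comp_continuous continuous_snd)
    · have h1 := f.2.2 a b
      have h2 := k.2.2 b c
      simp only [h1, h2]
      ring⟩

/-- The class of the cup product in `H²(G, F_p)`. -/
def cupClass {p : ℕ} {G : Type} [Group G] [TopologicalSpace G] (f k : H1 p G) : H2 p G :=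
  Submodule.Quotient.mk (cup f k)

/-- `G` is a Demushkin pro-`p` group: a finitely generated pro-`p` group with
`dim H²(G, F_p) = 1` and non-degenerate cup product `H¹ × H¹ → H²`. -/
structure IsDemushkin (p : ℕ) [Fact p.Prime] (G : Type) [Group G] [TopologicalSpace G] :
    Prop where
  proP : IsProP p G
  fg : ∃ S : Finset G, closure (Subgroup.closure (S : Set G) : Set G) = Set.univ
  dim_h2 : Module.finrank (ZMod p) (H2 p G) = 1
  left : ∀ f : H1 p G, (∀ k : H1 p G, cupClass f k = 0) → f = 0
  right : ∀ k : H1 p G, (∀ f : H1 p G, cupClass f k = 0) → k = 0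

/-- `G` is self-similar of index `p`: it has a faithful continuous self-similar action on the
`p`-ary rooted tree (whose vertices are the finite words over `Fin p`) that is transitive on the
first level. -/
def IsSelfSimilar (p : ℕ) (G : Type) [Group G] [TopologicalSpace G] : Prop :=
  ∃ ρ : G →* Equiv.Perm (List (Fin p)),
    -- tree automorphisms
    (∀ g v, (ρ g v).length = v.length) ∧
    (∀ g v w, v <+: w → ρ g v <+: ρ g w) ∧
    -- self-similar
    (∀ g x, ∃ y h, ∀ w, ρ g (x :: w) = y :: ρ h w) ∧
    -- faithful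
    Function.Injective ρ ∧
    -- continuous: all vertex stabilisers are open
    (∀ v, IsOpen {g | ρ g v = v}) ∧
    -- transitive on the first level
    (∀ x y : Fin p, ∃ g, ρ g [x] = [y])

end Pool.Agent.H5.Dem
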