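import Pool.Agent.H5.Dem.Defs

/-!
# Project DEM (MP_33d618_al): statements of the modules

Every module `XX` proves `theorem xx (hypotheses) : XXStmt`.
-/

set_option autoImplicit false

namespace Pool.Agent.H5.Dem

/-- Automorphisms of an abelian group, as a multiplicative group. -/
abbrev Au (A : Type) [AddCommGroup A] : Type := A ≃ₗ[ℤ] A

/-- The word `x² y⁴ [y, z]`. -/
def rel {E : Type} [Group E] (a b c : E) : E := a ^ 2 * b ^ 4 * (b⁻¹ * c⁻¹ * b * c)

/-- `G` is the pro-2 group with generators `x, y, z` and the relation `x² y⁴ [y, z] = 1`. -/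
structure IsG (G : Type) [Group G] [TopologicalSpace G] (x y z : G) : Prop where
  proP : IsProP 2 G
  dense : closure (Subgroup.closure {x, y, z} : Set G) = Set.univ
  rel_eq : rel x y z = 1
  up : ∀ (E : Type) [Group E] [Finite E], IsPGroup 2 E → ∀ a b c : E, rel a b c = 1 →
      ∃ f : G →* E, IsOpen (f.ker : Set G) ∧ f x = a ∧ f y = b ∧ f z = c

/-- Continuous crossed homomorphisms `Γ → A`. -/
def Z1 {Γ A : Type} [Group Γ] [TopologicalSpace Γ] [AddCommGroup A] (σ : Γ →* Au A) :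
    AddSubgroup (Γ → A) where
  carrier := {c | IsLocallyConstant c ∧ ∀ g h, c (g * h) = c g + σ g (c h)}
  add_mem' := by
    rintro f k ⟨hf, hf'⟩ ⟨hk, hk'⟩
    refine ⟨hf.add hk, fun g h => ?_⟩
    simp only [Pi.add_apply, hf', hk', map_add]
    abel
  zero_mem' := ⟨IsLocallyConstant.const 0, fun g h => by simp⟩
  neg_mem' := by
    rintro f ⟨hf, hf'⟩
    refine ⟨hf.neg, fun g h => ?_⟩
    simp only [Pi.neg_apply, hf', map_neg]
    abel

/-- The value at `x² y⁴ [y, z]` of the crossed homomorphism with values `a, b, c` at `x, y, z`;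
`X, Y, Z` are the actions of `x, y, z`. -/
def DD {A : Type} [AddCommGroup A] (X Y Z : Au A) (a b c : A) : A :=
  a + X a + (X * X) (b + Y b + (Y * Y) b + (Y * Y * Y * Z⁻¹) b) +
    (X * X * Y * Y * Y * Z⁻¹) (Y c - c)

/-- The character `χ` modulo 8. -/
structure IsChi {G : Type} [Group G] [TopologicalSpace G] (x y z : G) (χ : G →* (ZMod 8)ˣ) :
    Prop where
  isOpen : IsOpen (χ.ker : Set G)
  hx : ((χ x : (ZMod 8)ˣ) : ZMod 8) = 7
  hy : ((χ y : (ZMod 8)ˣ) : ZMod 8) = 1
  hz : ((χ z : (ZMod 8)ˣ) : ZMod 8) = 5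

/-- The induced module: functions `f : G → M` with `f (u g) = u (f g)`. -/
def Ind {G : Type} [Group G] (U : Subgroup G) {M : Type} [AddCommGroup M]
    (ρ : U →* Au M) : AddSubgroup (G → M) where
  carrier := {f | ∀ (u : U) (g : G), f (u * g) = ρ u (f g)}
  add_mem' := by
    intro f k hf hk u g
    simp only [Pi.add_apply, hf u g, hk u g, map_add]
  zero_mem' := fun u g => by simp
  neg_mem' := by
    intro f hf u g
    simp only [Pi.neg_apply, hf u g, map_neg]

/-- The action of `G` on the induced module by right translation. -/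
def indAct {G : Type} [Group G] (U : Subgroup G) {M : Type} [AddCommGroup M]
    (ρ : U →* Au M) : G →* Au (Ind U ρ) where
  toFun g :=
    { toFun := fun f => ⟨fun h => f.1 (h * g), fun u h => by
        simpa only [mul_assoc] using f.2 u (h * g)⟩
      invFun := fun f =>
        ⟨fun h => f.1 (h * g⁻¹), fun u h => by
          simpa only [mul_assoc] using f.2 u (h * g⁻¹)⟩
      left_inv := fun f => by ext h; simp
      right_inv := fun f => by ext h; simp
      map_add' := fun f k => by ext h; simp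
      map_smul' := fun n f => by ext h; simp }
  map_one' := by ext f h; simp
  map_mul' := fun a b => by ext f h; simp [mul_assoc]

/-- Characters `ψ` of `M` with `ψ (u m) = ψ (χ(u) m)`. -/
def JJ {Γ M : Type} [Group Γ] [AddCommGroup M] (ρ : Γ →* Au M) (χ : Γ →* (ZMod 8)ˣ) :
    Set (AddChar M ℂ) :=
  {ψ | ∀ u m, ψ (ρ u m) = ψ ((((χ u : (ZMod 8)ˣ) : ZMod 8).val) • m)}

/-! ## The modules -/

/-- Module GRP: the group exists (pro-2 completion of the discrete group). -/
def GRPStmt : Prop :=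
  ∃ (G : Type) (_ : Group G) (_ : TopologicalSpace G) (x y z : G), IsG G x y z

/-- Module DEMU: the group is a Demushkin group with `d(G) = 3`. -/
def DEMUStmt : Prop :=
  ∀ (G : Type) [Group G] [TopologicalSpace G] (x y z : G), IsG G x y z →
    IsDemushkin 2 G ∧ Module.finrank (ZMod 2) (H1 2 G) = 3

/-- Module CHI0: the character exists. -/
def CHI0Stmt : Prop :=
  ∀ (G : Type) [Group G] [TopologicalSpace G] (x y z : G), IsG G x y z →
    ∃ χ : G →* (ZMod 8)ˣ, IsChi x y z χ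

/-- Module KL: the key lemma on finite abelian groups. -/
def KLStmt : Prop :=
  ∀ (A : Type) [AddCommGroup A] [Finite A] (X Y Z : Au A) (k : ℕ),
    (∀ a : A, 8 • a = 0) → Y ^ (2 ^ k) = 1 →
    Nat.card {v : A × A × A // DD X Y Z v.1 v.2.1 v.2.2 = 0} = Nat.card A ^ 2 *
      Nat.card {ψ : AddChar A ℂ // (∀ a, ψ (X a) = ψ (7 • a)) ∧ (∀ a, ψ (Y a) = ψ a) ∧
        ∀ a, ψ (Z a) = ψ (5 • a)}

/-- Module UPZ: crossed homomorphisms of `G`, from the universal property. -/
def UPZStmt : Prop :=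
  ∀ (G : Type) [Group G] [TopologicalSpace G] (x y z : G), IsG G x y z →
    ∀ (A : Type) [AddCommGroup A] [Finite A] (σ : G →* Au A), (∀ a : A, 8 • a = 0) →
      IsOpen (σ.ker : Set G) →
      Nat.card (Z1 σ) = Nat.card {v : A × A × A // DD (σ x) (σ y) (σ z) v.1 v.2.1 v.2.2 = 0}

/-- Module IND: the induced module. -/
def INDStmt : Prop :=
  ∀ (G : Type) [Group G] [TopologicalSpace G], IsProP 2 G → ∀ (U : Subgroup G),
    IsOpen (U : Set G) → ∀ (M : Type) [AddCommGroup M] [Finite M] (ρ : U →* Au M),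
      IsOpen (ρ.ker : Set U) →
      Nat.card (Ind U ρ) = Nat.card M ^ U.index ∧ IsOpen ((indAct U ρ).ker : Set G)

/-- Module SHAP: Shapiro's lemma for crossed homomorphisms. -/
def SHAPStmt : Prop :=
  ∀ (G : Type) [Group G] [TopologicalSpace G], IsProP 2 G → ∀ (U : Subgroup G),
    IsOpen (U : Set G) → ∀ (M : Type) [AddCommGroup M] [Finite M] (ρ : U →* Au M),
      IsOpen (ρ.ker : Set U) →
      Nat.card (Z1 (indAct U ρ)) = Nat.card (Z1 ρ) * Nat.card M ^ (U.index - 1)

/-- Module FROB: Frobenius reciprocity for characters. -/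
def FROBStmt : Prop :=
  ∀ (G : Type) [Group G] (U : Subgroup G), U.index ≠ 0 →
    ∀ (M : Type) [AddCommGroup M] [Finite M] (ρ : U →* Au M) (χ : G →* (ZMod 8)ˣ),
      (∀ m : M, 8 • m = 0) →
      Nat.card (JJ (indAct U ρ) χ) = Nat.card (JJ ρ (χ.comp U.subtype))

/-- Module EUL: the counting theorem (from KL, UPZ, IND, SHAP, FROB). -/
def EULStmt : Prop :=
  ∀ (G : Type) [Group G] [TopologicalSpace G] (x y z : G), IsG G x y z →
    ∀ χ : G →* (ZMod 8)ˣ, IsChi x y z χ → ∀ (U : Subgroup G), IsOpen (U : Set G) →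
      ∀ (M : Type) [AddCommGroup M] [Finite M] (ρ : U →* Au M), (∀ m : M, 8 • m = 0) →
        IsOpen (ρ.ker : Set U) →
        Nat.card (Z1 ρ) = Nat.card M ^ (U.index + 1) * Nat.card (JJ ρ (χ.comp U.subtype))

/-- Module H1C: number of continuous homomorphisms to `F_2` (from EUL, CHI0). -/
def H1CStmt : Prop :=
  ∀ (G : Type) [Group G] [TopologicalSpace G] (x y z : G), IsG G x y z →
    ∀ (U : Subgroup G), IsOpen (U : Set G) → Nat.card (H1 2 U) = 2 ^ (U.index + 2)

/-- Module CUP: cup products on open subgroups (from EUL, CHI0, H1C). -/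
def CUPStmt : Prop :=
  ∀ (G : Type) [Group G] [TopologicalSpace G] (x y z : G), IsG G x y z →
    ∀ (V : Subgroup G), IsOpen (V : Set G) → ∀ ω : H1 2 V, ω ≠ 0 →
      (∀ f₁ f₂ : H1 2 V, ∃ (k : H1 2 V) (e : V → ZMod 2), IsLocallyConstant e ∧
        ∀ g h, e (g * h) = e g + e h + f₁.1 g * f₂.1 h + ω.1 g * k.1 h) ∧
      ∃ k : H1 2 V, ¬ ∃ e : V → ZMod 2, IsLocallyConstant e ∧
        ∀ g h, e (g * h) = e g + e h + ω.1 g * k.1 h

/-- Module CHI: `χ` is characterised on subgroups of index 2 (from EUL). -/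
def CHIStmt : Prop :=
  ∀ (G : Type) [Group G] [TopologicalSpace G] (x y z : G), IsG G x y z →
    ∀ χ : G →* (ZMod 8)ˣ, IsChi x y z χ → ∀ (H : Subgroup G), IsOpen (H : Set G) →
      H.index = 2 → ∀ θ : H →* (ZMod 8)ˣ, IsOpen (θ.ker : Set H) →
        (Nat.card (Z1 ((DistribMulAction.toModuleAut ℤ (ZMod 8) (S := (ZMod 8)ˣ)).comp θ)) = 4096 ↔ θ = χ.comp H.subtype)

/-- Module EXT: continuous homomorphisms to `F_2` extend from closed subgroups to open ones. -/
def EXTStmt : Prop :=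
  ∀ (G : Type) [Group G] [TopologicalSpace G], IsProP 2 G → ∀ (P : Subgroup G),
    IsClosed (P : Set G) → ∀ f₁ f₂ : H1 2 P, ∃ (V : Subgroup G) (hPV : P ≤ V) (F₁ F₂ : H1 2 V),
      IsOpen (V : Set G) ∧ (∀ g : P, F₁.1 ⟨g, hPV g.2⟩ = f₁.1 g) ∧
        ∀ g : P, F₂.1 ⟨g, hPV g.2⟩ = f₂.1 g

/-- Module MAX: proper closed subgroups lie in the kernel of a character of order 2. -/
def MAXStmt : Prop :=
  ∀ (G : Type) [Group G] [TopologicalSpace G], IsProP 2 G → ∀ (V P : Subgroup G) (hPV : P ≤ V),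
    IsClosed (V : Set G) → IsClosed (P : Set G) → P ≠ V →
      ∃ ω : H1 2 V, ω ≠ 0 ∧ ∀ g : P, ω.1 ⟨g, hPV g.2⟩ = 0

/-- Module CUP0: cup products vanish on closed subgroups which are not open (from CUP, EXT,
MAX). -/
def CUP0Stmt : Prop :=
  ∀ (G : Type) [Group G] [TopologicalSpace G] (x y z : G), IsG G x y z →
    ∀ (P : Subgroup G), IsClosed (P : Set G) → ¬ IsOpen (P : Set G) → ∀ f₁ f₂ : H1 2 P,
      ∃ e : P → ZMod 2, IsLocallyConstant e ∧ ∀ g h, e (g * h) = e g + e h + f₁.1 g * f₂.1 h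

/-- Module COMM: commuting elements (from CUP0, MAX, H1C). -/
def COMMStmt : Prop :=
  ∀ (G : Type) [Group G] [TopologicalSpace G] (x y z : G), IsG G x y z →
    ∀ (A B : Subgroup G), IsClosed (A : Set G) → IsClosed (B : Set G) → A ⊓ B = ⊥ →
      ∀ a ∈ A, ∀ b ∈ B, a * b = b * a → a = 1 ∨ b = 1

/-- Module TREE: the virtual endomorphism of a self-similar action. -/
def TREEStmt : Prop :=
  ∀ (G : Type) [Group G] [TopologicalSpace G], IsProP 2 G → IsSelfSimilar 2 G →
    ∃ (H : Subgroup G) (φ : H →* G), IsOpen (H : Set G) ∧ H.index = 2 ∧ Continuous φ ∧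
      ∀ (N : Subgroup G) (hN : N ≤ H), N.Normal → (∀ n (hn : n ∈ N), φ ⟨n, hN hn⟩ ∈ N) → N = ⊥

/-- Module INJ: the virtual endomorphism is injective (from COMM). -/
def INJStmt : Prop :=
  ∀ (G : Type) [Group G] [TopologicalSpace G] (x y z : G), IsG G x y z →
    ∀ (H : Subgroup G) (φ : H →* G), IsOpen (H : Set G) → H.index = 2 → Continuous φ →
      (∀ (N : Subgroup G) (hN : N ≤ H), N.Normal → (∀ n (hn : n ∈ N), φ ⟨n, hN hn⟩ ∈ N) →
        N = ⊥) → Function.Injective φ

/-- Module IDX: the image of an injective virtual endomorphism has index 2 (from H1C, CUP,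
CUP0). -/
def IDXStmt : Prop :=
  ∀ (G : Type) [Group G] [TopologicalSpace G] (x y z : G), IsG G x y z →
    ∀ (H : Subgroup G) (φ : H →* G), IsOpen (H : Set G) → H.index = 2 → Continuous φ →
      Function.Injective φ → IsOpen (φ.range : Set G) ∧ φ.range.index = 2

/-- Module FIN: the contradiction (from CHI, CHI0, H1C, MAX). -/
def FINStmt : Prop :=
  ∀ (G : Type) [Group G] [TopologicalSpace G] (x y z : G), IsG G x y z →
    ∀ (H : Subgroup G) (φ : H →* G), IsOpen (H : Set G) → H.index = 2 → Continuous φ →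
      Function.Injective φ → IsOpen (φ.range : Set G) → φ.range.index = 2 →
      ∃ (N : Subgroup G) (hN : N ≤ H), N.Normal ∧ (∀ n (hn : n ∈ N), φ ⟨n, hN hn⟩ ∈ N) ∧ N ≠ ⊥

/-- The final result. -/
def MainStmt : Prop :=
  ∃ (G : Type) (_ : Group G) (_ : TopologicalSpace G), IsDemushkin 2 G ∧
    Module.finrank (ZMod 2) (H1 2 G) = 3 ∧ ¬ IsSelfSimilar 2 G

/-- Assembly. -/
theorem main (hG : GRPStmt) (hD : DEMUStmt) (hT : TREEStmt) (hI : INJStmt) (hX : IDXStmt)
    (hF : FINStmt) : MainStmt := by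
  obtain ⟨G, iG, iT, x, y, z, h⟩ := hG
  refine ⟨G, iG, iT, (hD G x y z h).1, (hD G x y z h).2, fun hs => ?_⟩
  obtain ⟨H, φ, hH, hi, hc, hN⟩ := hT G h.proP hs
  have hinj := hI G x y z h H φ hH hi hc hN
  obtain ⟨ho, hr⟩ := hX G x y z h H φ hH hi hc hinj
  obtain ⟨N, hN', h1, h2, h3⟩ := hF G x y z h H φ hH hi hc hinj ho hr
  exact h3 (hN N hN' h1 h2)

end Pool.Agent.H5.Dem
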